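import Mathlib
import Pool.Agent.Q13.DS.Poly

/-!
# Points given by linear recurrences over difference fields, on hyperbolic varieties

Let `X` and `Z` be the projective algebraic sets over a number field `k` given by the forms in `I`
and `I'` (for `I' = ⊤` the set `Z` is empty), and let `σ` be an embedding of `k` in `ℂ`. `X_σ` is
called hyperbolic modulo `Z` if all nonconstant entire curves in `X_σ` lie in `Z`. For empty `Z` this
means that `X_σ` is Brody hyperbolic, so Kobayashi hyperbolic.

We consider sequences of points of `X(L)`, not in `Z`, where `L ⊇ k` is a field, embedded in `ℂ` by an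
extension `τ` of `σ`. The homogeneous coordinates satisfy nontrivial linear recurrences with
coefficients in a field `B` of sequences of complex numbers (sequences which are eventually equal
are identified; `B` is closed under the shift; the nonzero elements of `B` are eventually nonzero).
This is the definition of `CoefField B` and of `LinRec B`. Examples of `B` are the constants, the
rational functions in `m`, the rational functions in `m, q₁ ^ m, …, q_s ^ m`.

Moreover there are the towers (`Tow B`): one starts with the eventually constant sequences; in each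
step one goes to a field which is generated by finitely many sequences satisfying linear
recurrences over the previous field. For instance the field generated by all shifts of a sequence
given by a linear recurrence over the rational functions in `m`, if it is a field and finitely
generated.

The following are equivalent:

1. all nonconstant rational curves in `X_σ` lie in `Z`;
2. for all fields `B`, all the sequences are algebraic over `B`: for a complex linear form `ℓ` and a
  shift `t`, the quotients `x_j (m + t) / ℓ (x (m + t))` are integral over `B`;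
3. for all fields `B` of transcendence degree at most `d` over the constants, the Zariski closure
  (over `L`) of each of the sequences has dimension at most `d`: any `d + 2` of the homogeneous
  coordinates satisfy a nontrivial homogeneous relation over `L` on all points of the sequence;
4. for all towers, all the sequences are eventually periodic;
5. for all towers and all number fields `L`, the sequences consist of finitely many points of `X(L)`;
6. for all number fields `L`, the polynomial sequences in `X(L) ∖ Z` consist of finitely many points.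

If `X_σ` is hyperbolic modulo `Z`, all this holds.
-/

set_option autoImplicit false

namespace Pool.Agent.Results.MP_627a61_nt.RecurrencesOverFields

open MvPolynomial Filter FF Pool.Agent.TH143 Pool.Agent.TH143.DE Pool.Agent.TH143.HE
  Pool.Agent.TH143.TW Pool.Agent.Q13.DS

variable {k : Type} [Field k] {N : ℕ}

/-- All nonconstant entire curves in `X_σ` lie in `Z`. The curves are given by entire functions
`f_0, …, f_N` without common zeros. For `I' = ⊤`, when `Z` is empty, this is the Brody
hyperbolicity of `X_σ`. -/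
def Hyperbolic (σ : k →+* ℂ) (I I' : Ideal (MvPolynomial (Fin (N + 1)) k)) : Prop :=
  ∀ f : ℂ → Fin (N + 1) → ℂ, (∀ j, Differentiable ℂ (fun z => f z j)) → (∀ z, f z ≠ 0) →
    (∀ z, IsPtP σ I (f z)) → NonConstC f → ∀ z, IsPtP σ I' (f z)

/-- The `x m` are homogeneous coordinates of points of `X(L)` which are not in `Z`, and, after the
embedding `τ` of `L` in `ℂ` which extends `σ`, each coordinate satisfies a nontrivial linear
recurrence with coefficients in `B`. -/
structure Given (σ : k →+* ℂ) (I I' : Ideal (MvPolynomial (Fin (N + 1)) k))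
    (B : Subalgebra ℂ (ℕ → ℂ)) {L : Type} [Field L] [Algebra k L] (τ : L →+* ℂ)
    (x : ℕ → Fin (N + 1) → L) : Prop where
  ext : τ.comp (algebraMap k L) = σ
  ne : ∀ m, x m ≠ 0
  recur : ∀ j, LinRec B fun m => τ (x m j)
  mem : ∀ m, IsPtP (algebraMap k L) I (x m)
  out : ∀ m, ¬ IsPtP (algebraMap k L) I' (x m)

/-- The value of the complex linear form `ℓ`. -/
noncomputable def lin (ℓ : MvPolynomial (Fin (N + 1)) ℂ) {L : Type} [Field L] (τ : L →+* ℂ)
    (x : Fin (N + 1) → L) : ℂ :=
  eval (fun j => τ (x j)) ℓ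

/-- (2) for one sequence -/
def AlgebraicOver (B : Subalgebra ℂ (ℕ → ℂ)) {L : Type} [Field L] (τ : L →+* ℂ)
    (x : ℕ → Fin (N + 1) → L) : Prop :=
  ∃ (ℓ : MvPolynomial (Fin (N + 1)) ℂ) (t : ℕ), ℓ.IsHomogeneous 1 ∧
    (∀ᶠ m in atTop, lin ℓ τ (x m) ≠ 0) ∧
    ∀ j, IntOver B fun m => τ (x (m + t) j) / lin ℓ τ (x (m + t))

/-- (3) for one sequence: the Zariski closure of the points has dimension at most `d` -/
def ClosureDimLe (d : ℕ) {L : Type} [Field L] (x : ℕ → Fin (N + 1) → L) : Prop :=
  ∀ J : Fin (d + 2) → Fin (N + 1), ∃ H : MvPolynomial (Fin (d + 2)) L, (∃ e, H.IsHomogeneous e) ∧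
    H ≠ 0 ∧ ∀ m, eval (fun i => x m (J i)) H = 0

/-- (4) for one sequence: the points are eventually periodic -/
def EventuallyPeriodic {L : Type} [Field L] (x : ℕ → Fin (N + 1) → L) : Prop :=
  ∃ n m0 : ℕ, 0 < n ∧ ∀ m, m0 ≤ m → ∀ i j, x (m + n) i * x m j = x (m + n) j * x m i

/-- (5) for one sequence: there are only finitely many different points -/
def FinitelyMany {L : Type} [Field L] (x : ℕ → Fin (N + 1) → L) : Prop :=
  ∃ S : Set (Fin (N + 1) → L), S.Finite ∧ (∀ v ∈ S, v ≠ 0) ∧
    ∀ m, ∃ v ∈ S, ∀ i j, x m i * v j = x m j * v i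

/-- (2) -/
def AllAlgebraic (σ : k →+* ℂ) (I I' : Ideal (MvPolynomial (Fin (N + 1)) k)) : Prop :=
  ∀ B : Subalgebra ℂ (ℕ → ℂ), CoefField B → ∀ (L : Type) [Field L] [Algebra k L] (τ : L →+* ℂ)
    (x : ℕ → Fin (N + 1) → L), Given σ I I' B τ x → AlgebraicOver B τ x

/-- (3) -/
def AllSmall (σ : k →+* ℂ) (I I' : Ideal (MvPolynomial (Fin (N + 1)) k)) : Prop :=
  ∀ B : Subalgebra ℂ (ℕ → ℂ), CoefField B → ∀ d, TrLe B d → ∀ (L : Type) [Field L] [Algebra k L]
    (τ : L →+* ℂ) (x : ℕ → Fin (N + 1) → L), Given σ I I' B τ x → ClosureDimLe d x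

/-- (4) -/
def AllPeriodic (σ : k →+* ℂ) (I I' : Ideal (MvPolynomial (Fin (N + 1)) k)) : Prop :=
  ∀ B : Subalgebra ℂ (ℕ → ℂ), Tow B → ∀ (L : Type) [Field L] [Algebra k L]
    (τ : L →+* ℂ) (x : ℕ → Fin (N + 1) → L), Given σ I I' B τ x → EventuallyPeriodic x

/-- (5) -/
def AllFinite (σ : k →+* ℂ) (I I' : Ideal (MvPolynomial (Fin (N + 1)) k)) : Prop :=
  ∀ B : Subalgebra ℂ (ℕ → ℂ), Tow B → ∀ (L : Type) [Field L] [NumberField L] [Algebra k L]
    (τ : L →+* ℂ) (x : ℕ → Fin (N + 1) → L), Given σ I I' B τ x → FinitelyMany x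

/-- (6) -/
def PolynomialsFinite (I I' : Ideal (MvPolynomial (Fin (N + 1)) k)) : Prop :=
  ∀ (L : Type) [Field L] [NumberField L] [Algebra k L] (P : Fin (N + 1) → Polynomial L),
    (∀ m : ℕ, (fun j => (P j).eval (m : L)) ≠ 0) →
    (∀ m : ℕ, IsPtP (algebraMap k L) I fun j => (P j).eval (m : L)) →
    (∀ m : ℕ, ¬ IsPtP (algebraMap k L) I' fun j => (P j).eval (m : L)) →
    FinitelyMany fun (m : ℕ) j => (P j).eval (m : L)

theorem pt_iff {σ : k →+* ℂ} {L : Type} [Field L] [Algebra k L] {τ : L →+* ℂ}
    (hτ : τ.comp (algebraMap k L) = σ) (J : Ideal (MvPolynomial (Fin (N + 1)) k))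
    (y : Fin (N + 1) → L) : IsPtP σ J (fun j => τ (y j)) ↔ IsPtP (algebraMap k L) J y := by
  have h1 : ∀ G : MvPolynomial (Fin (N + 1)) k, eval₂ σ (fun j => τ (y j)) G =
      τ (eval₂ (algebraMap k L) y G) := by
    intro G
    rw [← hτ]
    exact (eval₂_comp_left τ (algebraMap k L) y G).symm
  unfold IsPtP
  simp only [h1, map_eq_zero]

theorem exists_ext [NumberField k] (σ : k →+* ℂ) (L : Type) [Field L] [NumberField L]
    [Algebra k L] : ∃ τ : L →+* ℂ, τ.comp (algebraMap k L) = σ := by
  let _ : Algebra k ℂ := σ.toAlgebra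
  have halg : Algebra.IsAlgebraic k L := Algebra.IsAlgebraic.tower_top (K := ℚ) k
  let e : L →ₐ[k] ℂ := IsAlgClosed.lift
  refine ⟨e, ?_⟩
  ext r
  exact e.commutes _

theorem ne_zero {L : Type} [Field L] (τ : L →+* ℂ) {y : Fin (N + 1) → L} (h : y ≠ 0) :
    (fun j => τ (y j)) ≠ 0 := by
  intro h0
  refine h (funext fun j => ?_)
  have h1 := congrFun h0 j
  simpa using h1

theorem finite_of_periodic {L : Type} [Field L] {x : ℕ → Fin (N + 1) → L} (hne : ∀ m, x m ≠ 0)
    (h : EventuallyPeriodic x) : FinitelyMany x := by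
  classical
  obtain ⟨n, m0, hn, h⟩ := h
  refine ⟨x '' (Set.Iio (m0 + n)), (Set.finite_lt_nat (m0 + n)).image x, ?_, fun m => ?_⟩
  · rintro _ ⟨m, _, rfl⟩
    exact hne m
  · induction m using Nat.strong_induction_on with
    | _ m ih =>
      rcases Nat.lt_or_ge m (m0 + n) with h1 | h1
      · exact ⟨x m, ⟨m, h1, rfl⟩, fun i j => mul_comm _ _⟩
      · obtain ⟨v, hv, h2⟩ := ih (m - n) (by omega)
        refine ⟨v, hv, fun i j => ?_⟩
        have h3 := h (m - n) (by omega)
        have h4 : m - n + n = m := by omega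
        rw [h4] at h3
        obtain ⟨a, ha⟩ := Function.ne_iff.1 (hne (m - n))
        have ha' : x (m - n) a ≠ 0 := ha
        have h5 : x (m - n) a * (x m i * v j - x m j * v i) = 0 := by
          linear_combination (h3 i a) * v j - (h3 j a) * v i + x m a * h2 i j
        exact sub_eq_zero.1 ((mul_eq_zero.1 h5).resolve_left ha')

/-- polynomial sequences with infinitely many points -/
theorem not_few {L : Type} [Field L] {x : ℕ → Fin (N + 1) → L} {S : Set (Fin (N + 1) → L)}
    (hS : S.Finite) (hfew : ∀ᶠ m in atTop, ∃ v ∈ S, ∀ i j, x m i * v j = x m j * v i)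
    (hinf : ∀ v ∈ S, {m | ∀ i j, x m i * v j = x m j * v i}.Finite) : False := by
  have h1 : (⋃ v ∈ S, {m | ∀ i j, x m i * v j = x m j * v i}).Finite := hS.biUnion hinf
  obtain ⟨m0, hm0⟩ := eventually_atTop.1 hfew
  have h2 : Set.Ici m0 ⊆ ⋃ v ∈ S, {m | ∀ i j, x m i * v j = x m j * v i} := by
    intro m hm
    obtain ⟨v, hv, h3⟩ := hm0 m hm
    exact Set.mem_biUnion hv h3
  exact (Set.Ici_infinite m0) (h1.subset h2)

theorem rat_of_poly [NumberField k] (σ : k →+* ℂ) {I I' : Ideal (MvPolynomial (Fin (N + 1)) k)}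
    (h : PolynomialsFinite I I') : RatCurvesIn σ I I' := by
  rw [ratCurvesIn_iff]
  intro p hp
  let _ : Algebra k ℂ := σ.toAlgebra
  have hp1 : RCur ((algebraMap k ℂ).comp (RingHom.id k)) I I' p := hp
  obtain ⟨L, _, _, _, p', hp'⟩ := RCur.spec (k := k) (E := ℂ) (RingHom.id k) hp1
  have hchar : CharZero L := charZero_of_injective_algebraMap (algebraMap k L).injective
  have hfin : FiniteDimensional ℚ L := FiniteDimensional.trans ℚ k L
  have hnf : NumberField L := ⟨⟩
  rw [RingHom.comp_id] at hp'
  obtain ⟨P, h1, h2, h3, h4⟩ := exists_poly_rat (algebraMap k L) hp'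
  obtain ⟨S, hS, hS0, h5⟩ := h L P h1 h2 h3
  exact not_few hS (Eventually.of_forall h5) fun v hv => h4 v (hS0 v hv)

/-- binary forms have finitely many zeros -/
theorem binary_zeros {L : Type} [Field L] [Infinite L] {H : MvPolynomial (Fin 2) L} {e : ℕ}
    (hH : H.IsHomogeneous e) (h0 : H ≠ 0) : ∃ S : Set L, S.Finite ∧ ∀ a b : L, a ≠ 0 →
      eval (![a, b] : Fin 2 → L) H = 0 → b / a ∈ S := by
  classical
  let h : Polynomial L := aeval (![1, Polynomial.X] : Fin 2 → Polynomial L) H
  have hev : ∀ r : L, h.eval r = eval (![1, r] : Fin 2 → L) H := by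
    intro r
    have h1 := MvPolynomial.comp_aeval_apply (f := (![1, Polynomial.X] : Fin 2 → Polynomial L))
      (Polynomial.aeval r) H
    rw [Polynomial.coe_aeval_eq_eval] at h1
    rw [h1, MvPolynomial.aeval_eq_eval]
    congr 2
    funext i
    fin_cases i
    · simp
    · simp
  have hsm : ∀ a b : L, a ≠ 0 → eval (![a, b] : Fin 2 → L) H = a ^ e * h.eval (b / a) := by
    intro a b ha
    have h1 := eval₂_smul_homog (RingHom.id L) a (![1, b / a] : Fin 2 → L) hH
    have h2 : (fun j => a * (![1, b / a] : Fin 2 → L) j) = ![a, b] := by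
      funext i
      fin_cases i
      · simp
      · simp [mul_div_cancel₀ _ ha]
    rw [h2] at h1
    rw [hev]
    exact h1
  have hh : h ≠ 0 := by
    intro hz
    have h2 : X 0 * H = 0 := by
      apply MvPolynomial.funext
      intro v
      rw [map_mul, eval_X, map_zero]
      by_cases hv : v 0 = 0
      · rw [hv, zero_mul]
      · have h3 := hsm (v 0) (v 1) hv
        have h4 : (![v 0, v 1] : Fin 2 → L) = v := by
          funext i
          fin_cases i <;> rfl
        rw [h4, hz, Polynomial.eval_zero, mul_zero] at h3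
        rw [h3, mul_zero]
    exact h0 ((mul_eq_zero.1 h2).resolve_left (X_ne_zero 0))
  refine ⟨{z | h.IsRoot z}, Polynomial.finite_setOfPred_isRoot hh, fun a b ha hz => ?_⟩
  rw [hsm a b ha] at hz
  exact (mul_eq_zero.1 hz).resolve_left (pow_ne_zero _ ha)

/-- sequences with zero-dimensional closure -/
theorem few_of_closure {L : Type} [Field L] [CharZero L] {x : ℕ → Fin (N + 1) → L}
    {a : Fin (N + 1)} (ha : ∀ᶠ m in atTop, x m a ≠ 0) (h : ClosureDimLe 0 x) :
    ∃ S : Set (Fin (N + 1) → L), S.Finite ∧ (∀ v ∈ S, v a = 1) ∧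
      ∀ᶠ m in atTop, ∃ v ∈ S, ∀ i j, x m i * v j = x m j * v i := by
  classical
  have hinf : Infinite L := CharZero.infinite L
  choose H hH h0 hz using fun j : Fin (N + 1) => h ![a, j]
  choose e he using hH
  choose T hT hT' using fun j => binary_zeros (he j) (h0 j)
  refine ⟨{v | v a = 1} ∩ Set.pi Set.univ T, (Set.Finite.pi fun j => hT j).inter_of_right _,
    fun v hv => hv.1, ?_⟩
  filter_upwards [ha] with m hm
  refine ⟨fun j => x m j / x m a, ⟨div_self hm, fun j _ => hT' j _ _ hm ?_⟩, fun i j => by ring⟩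
  have h1 := hz j m
  rw [← h1]
  congr 2
  funext i
  fin_cases i <;> rfl

theorem trLe_EC : TrLe EC 0 := by
  intro b hb
  obtain ⟨c, hc⟩ := hb 0
  refine ⟨X 0 - C c, ?_, ?_⟩
  · intro h
    have h1 := congrArg (eval fun _ => c + 1) h
    rw [map_sub, eval_X, eval_C, map_zero] at h1
    simp at h1
  · filter_upwards [hc] with m hm
    rw [map_sub, eval_X, eval_C, hm, sub_self]

theorem given_poly {σ : k →+* ℂ} {L : Type} [Field L] [Algebra k L] {τ : L →+* ℂ}
    (hτ : τ.comp (algebraMap k L) = σ) {I I' : Ideal (MvPolynomial (Fin (N + 1)) k)}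
    {P : Fin (N + 1) → Polynomial L} (h1 : ∀ m : ℕ, (fun j => (P j).eval (m : L)) ≠ 0)
    (h2 : ∀ m : ℕ, IsPtP (algebraMap k L) I fun j => (P j).eval (m : L))
    (h3 : ∀ m : ℕ, ¬ IsPtP (algebraMap k L) I' fun j => (P j).eval (m : L)) :
    Given σ I I' EC τ fun (m : ℕ) j => (P j).eval (m : L) := by
  refine ⟨hτ, h1, fun j => ?_, h2, h3⟩
  have h4 := linRec_poly ((P j).map τ)
  have h5 : (fun m : ℕ => ((P j).map τ).eval (m : ℂ)) = fun m : ℕ => τ ((P j).eval (m : L)) := by
    funext m
    rw [← Polynomial.eval_map_apply, map_natCast]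
  rwa [h5] at h4

theorem poly_of_small [NumberField k] {σ : k →+* ℂ}
    {I I' : Ideal (MvPolynomial (Fin (N + 1)) k)} (h : AllSmall σ I I') :
    RatCurvesIn σ I I' := by
  rw [ratCurvesIn_iff]
  intro p hp
  let _ : Algebra k ℂ := σ.toAlgebra
  have hp1 : RCur ((algebraMap k ℂ).comp (RingHom.id k)) I I' p := hp
  obtain ⟨L, _, _, _, p', hp'⟩ := RCur.spec (k := k) (E := ℂ) (RingHom.id k) hp1
  have hchar : CharZero L := charZero_of_injective_algebraMap (algebraMap k L).injective
  have hfin : FiniteDimensional ℚ L := FiniteDimensional.trans ℚ k L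
  have hnf : NumberField L := ⟨⟩
  rw [RingHom.comp_id] at hp'
  obtain ⟨P, h1, h2, h3, h4⟩ := exists_poly_rat (algebraMap k L) hp'
  obtain ⟨τ, hτ⟩ := exists_ext σ L
  have h5 := h EC EC_field 0 trLe_EC L τ _ (given_poly hτ h1 h2 h3)
  obtain ⟨a, ha⟩ := Function.ne_iff.1 (h1 0)
  have hPa : P a ≠ 0 := by
    intro h0
    apply ha
    simp [h0]
  have hev : ∀ᶠ m : ℕ in atTop, (P a).eval (m : L) ≠ 0 := by
    have h6 : {z : L | (P a).IsRoot z}.Finite := Polynomial.finite_setOfPred_isRoot hPa
    have h7 : {m : ℕ | (P a).eval (m : L) = 0}.Finite := h6.preimage Nat.cast_injective.injOn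
    have h8 := h7.compl_mem_cofinite
    rwa [Nat.cofinite_eq_atTop] at h8
  obtain ⟨S, hS, hS1, h9⟩ := few_of_closure hev h5
  refine not_few hS h9 fun v hv => h4 v fun h0 => ?_
  have h10 := hS1 v hv
  rw [h0] at h10
  exact zero_ne_one h10

theorem result [NumberField k] (σ : k →+* ℂ) (I I' : Ideal (MvPolynomial (Fin (N + 1)) k)) :
    (Hyperbolic σ I I' → RatCurvesIn σ I I') ∧
    [RatCurvesIn σ I I', AllAlgebraic σ I I', AllSmall σ I I', AllPeriodic σ I I',
      AllFinite σ I I', PolynomialsFinite I I'].TFAE := by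
  refine ⟨fun h => rat_of_pentire fun f hf hne _ h1 h2 => h f hf hne h1 h2, ?_⟩
  tfae_have 1 → 2 := by
    intro h B hB L _ _ τ x hx
    exact int_points h hB (x := fun m j => τ (x m j))
      (Eventually.of_forall fun m => ne_zero τ (hx.ne m)) hx.recur
      (Eventually.of_forall fun m => (pt_iff hx.ext I (x m)).2 (hx.mem m))
      (Eventually.of_forall fun m hcon => hx.out m ((pt_iff hx.ext I' (x m)).1 hcon))
  tfae_have 2 → 3 := by
    intro h B hB d hd L _ _ τ x hx J
    obtain ⟨ℓ, t, hℓ, hℓx, hint⟩ := h B hB L τ x hx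
    obtain ⟨H, hH, h0, hz⟩ := form_of_int hB hd (x := fun m j => τ (x m j)) hℓx hint J
    obtain ⟨H', h1, h2, h3⟩ := tail_form (fun m i => τ (x m (J i))) hH h0 hz
    let _ : Algebra L ℂ := τ.toAlgebra
    exact form_descend (u := fun m i => x m (J i)) h1 h2 h3
  tfae_have 3 → 1 := poly_of_small
  tfae_have 1 → 4 := by
    intro h B hB L _ _ τ x hx
    obtain ⟨n, m0, hn, hper⟩ := tow_good h hB (fun m j => τ (x m j))
      (Eventually.of_forall fun m => ne_zero τ (hx.ne m)) hx.recur
      (Eventually.of_forall fun m => (pt_iff hx.ext I (x m)).2 (hx.mem m))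
      (Eventually.of_forall fun m hcon => hx.out m ((pt_iff hx.ext I' (x m)).1 hcon))
    refine ⟨n, m0, hn, fun m hm i j => ?_⟩
    have h2 := hper m hm i j
    simp only [← map_mul] at h2
    exact τ.injective h2
  tfae_have 4 → 5 := fun h B hB L _ _ _ τ x hx => finite_of_periodic hx.ne (h B hB L τ x hx)
  tfae_have 5 → 6 := by
    intro h L _ _ _ P h1 h2 h3
    obtain ⟨τ, hτ⟩ := exists_ext σ L
    exact h EC Tow.base L τ _ (given_poly hτ h1 h2 h3)
  tfae_have 6 → 1 := rat_of_poly σ
  tfae_finish

end Pool.Agent.Results.MP_627a61_nt.RecurrencesOverFields
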