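import Pool.Agent.Q309.DU.Run
import Pool.Agent.Q309.DU.UniF

set_option autoImplicit false

/-!
# Runs of rational points given by recurrences with polynomial coefficients

We consider sequences `x 0, x 1, ...` of points of the projective `n`-space over a field `L` which can
be embedded in `ℂ`, for instance a number field, such that (`DSeq r e B x`) each of the `n + 1`
sequences of homogeneous coordinates satisfies a nontrivial linear recurrence
`∑ P_k (t m) x (m + k) j = 0`, `k ≤ r`, at least for `m ≤ B`. Here the `P_k` are polynomials of degree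
at most `e` over `L`, and `t 0, ..., t B` are different elements of `L` with
`t (m + 1) = α t m + β`. For instance `t m = m` (P-recursive sequences) or `t m = q ^ m`
(`q`-recursive sequences).

For all `n`, `D`, `r`, `e` there is ONE number `d` such that the following holds for ALL closed
subsets `X` of the projective `n`-space over `ℂ` which are defined by forms of degree at most `D`,
ALL fields `L`, all embeddings of `L` in `ℂ` and all such sequences of `L`-rational points
`x 0, ..., x d` of `X`.

(1) Two of the points `x 0, ..., x d` are equal or one of them lies on all the hypersurfaces of degree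
at most `D` which contain all nonconstant rational curves of degree at most `d` on `X`.

(2) If `X` is Brody hyperbolic (all holomorphic maps `ℂ → X` are constant), then two of the points
`x 0, ..., x d` are equal.

(3) Conversely, if `X` contains a nonconstant rational curve of degree at most `d` which is not
contained in the hypersurface `G = 0`, then `X` contains arbitrarily long sequences of this kind of
different points outside of `G = 0`, with `r = 1` and `e = d`.
-/

namespace Pool.Agent.Results.MP_627a61_nt.RunsOfPoints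

open MvPolynomial Pool.Agent.Q1.SL Pool.Agent.Q309.DU
open Pool.Agent.TH143.EL (HolMap)
open scoped LinearAlgebra.Projectivization

theorem result (n : ℕ) :
    (∀ D r e : ℕ, ∃ d : ℕ, ∀ S : Set (MvPolynomial (Fin (n + 1)) ℂ),
      (∀ F ∈ S, ∃ e, e ≤ D ∧ F.IsHomogeneous e) →
      (∀ (L : Type) [Field L] (τ : L →+* ℂ) (x : ℕ → Fin (n + 1) → L), DSeq r e d x →
        (∀ m ≤ d, ∀ F ∈ S, eval (fun j => τ (x m j)) F = 0) →
        (∃ i j, i < j ∧ j ≤ d ∧ ∀ u v, x i u * x j v = x i v * x j u) ∨
          ∃ m ≤ d, ∀ G : MvPolynomial (Fin (n + 1)) ℂ, (∃ e, e ≤ D ∧ G.IsHomogeneous e) →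
            RatIn S G d → eval (fun j => τ (x m j)) G = 0) ∧
      ((∀ f : ℂ → ℙ ℂ (Fin (n + 1) → ℂ), HolMap f → (∀ z, ∀ F ∈ S, eval (f z).rep F = 0) →
          ∀ z w, f z = f w) →
        ∀ (L : Type) [Field L] (τ : L →+* ℂ) (x : ℕ → Fin (n + 1) → L), DSeq r e d x →
          (∀ m ≤ d, ∀ F ∈ S, eval (fun j => τ (x m j)) F = 0) →
          ∃ i j, i < j ∧ j ≤ d ∧ ∀ u v, x i u * x j v = x i v * x j u)) ∧
    (∀ (d : ℕ) (S : Set (MvPolynomial (Fin (n + 1)) ℂ)) (G : MvPolynomial (Fin (n + 1)) ℂ),
      ¬ RatIn S G d → ∀ B : ℕ, ∃ x : ℕ → Fin (n + 1) → ℂ, DSeq 1 d B x ∧ Diff B x ∧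
        (∀ m ≤ B, ∀ F ∈ S, eval (x m) F = 0) ∧ ∀ m ≤ B, eval (x m) G ≠ 0) := by
  refine ⟨fun D r e => ?_, fun d S G h B => run_of_rat h B⟩
  obtain ⟨d, hd⟩ := runs_uniform n D r e
  refine ⟨d, fun S hS => ⟨fun L _ τ x hx hX => hd S hS L τ x hx hX,
    fun hyp L _ τ x hx hX => ?_⟩⟩
  rcases hd S hS L τ x hx hX with h1 | ⟨m, -, h1⟩
  · exact h1
  · exfalso
    have h2 := h1 1 ⟨0, Nat.zero_le _, isHomogeneous_one _ _⟩ fun p hp1 hp2 hp3 => by
      exfalso
      obtain ⟨f, hf, -, -, hI, ⟨z, w, hzw⟩, -⟩ := exists_curve hp3 (I := Ideal.span S)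
        fun F hF => span_mem hp2 hF
      refine hzw (hyp f hf (fun z F hF => hI z F (Ideal.subset_span hF) ?_) z w)
      obtain ⟨e, -, he⟩ := hS F hF
      exact ⟨e, he⟩
    rw [map_one] at h2
    exact one_ne_zero h2

end Pool.Agent.Results.MP_627a61_nt.RunsOfPoints
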