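import Pool.Agent.Q1.SL.UnifR

set_option autoImplicit false

/-!
# Families of points given by iterated recurrences: bounds which are uniform in the variety

We consider families of points `x(h)`, `h ∈ H`, of closed subsets `X` of projective `n`-space over
`ℂ` (for instance points with coordinates in a number field, for all number fields together), where
`H` is a group and the homogeneous coordinates are given by `s` iterated recurrences with matrices of
size `r` and polynomials of degree at most `e` (`IterVec s r e x`): there are functions
`X_1, ..., X_s` on `H` with values in the invertible matrices of size `r` such that for every `g` the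
entries of `X_l(g h) X_l(h)⁻¹` are values of polynomials of degree at most `e` in each variable, with
coefficients which depend only on `g`, at the entries of `X_i(h)`, `X_i(h)⁻¹`, `i < l`, and the
coordinates of `x(h)` are values of such polynomials at the entries of all these matrices.

(1) For all `n`, `D`, `s`, `r`, `e` there are numbers `d` and `B` such that for ALL closed subsets `X`
of projective `n`-space defined by forms of degree at most `D` and all forms `G` of degree at most
`D`: if all nonconstant rational curves of degree at most `d` on `X` lie in `G = 0`, then every
family of points of `X` given by iterated recurrences of complexity `(s, r, e)` contains at most `B`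
different points outside of `G = 0`.

(2) Conversely, if `X` contains a nonconstant rational curve of degree at most `d` which is not
contained in `G = 0`, then there is a family over the group `ℤ`, of complexity `(1, 2, d)`, with
infinitely many points outside of `G = 0`.

For `G = 1`: a hyperbolic `X` contains no rational curves at all, so the number of the points in a
family given by iterated recurrences on a hyperbolic variety is at most `B(n, D, s, r, e)`; the bound
does not depend on the hyperbolic variety `X`, on the group or on the field of the coordinates.
-/

namespace Pool.Agent.Results.MP_627a61_nt.UniformInVariety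

open MvPolynomial Pool.Agent.Q1.SL Pool.Agent.Y377.ST

theorem result (n : ℕ) :
    (∀ D s r e : ℕ, ∃ d B : ℕ, ∀ (S : Set (MvPolynomial (Fin (n + 1)) ℂ))
      (G : MvPolynomial (Fin (n + 1)) ℂ), (∀ F ∈ S, ∃ e, e ≤ D ∧ F.IsHomogeneous e) →
      (∃ e, e ≤ D ∧ G.IsHomogeneous e) → RatIn S G d →
      ∀ (H : Type) [Group H] (x : H → Fin (n + 1) → ℂ), IterVec s r e x →
        (∀ h, ∀ F ∈ S, eval (x h) F = 0) → (ptsOff G x).encard ≤ (B : ℕ∞)) ∧
    ∀ (d : ℕ) (S : Set (MvPolynomial (Fin (n + 1)) ℂ)) (G : MvPolynomial (Fin (n + 1)) ℂ),
      (∀ x : Multiplicative ℤ → Fin (n + 1) → ℂ, IterVec 1 2 d x →
        (∀ h, ∀ F ∈ S, eval (x h) F = 0) → (ptsOff G x).Finite) → RatIn S G d :=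
  ⟨rec_uniform n, fun _ _ _ => ratIn_of_rec⟩

end Pool.Agent.Results.MP_627a61_nt.UniformInVariety
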