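import Pool.Agent.Q171.RC.Hyp

/-!
# Points of the members of algebraic families of projective varieties: Zariski-open sets of
# parameters which contain all hyperbolic members

We consider families of points `x(h)`, `h ∈ H`, of closed subsets `X` of projective space over `ℂ`
(for instance points with coordinates in a number field, for all number fields together), where `H`
is a group and the homogeneous coordinates are given by `s` iterated recurrences with matrices of
size `r` and polynomials of degree at most `e` (`IterVec s r e x`): there are functions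
`X_1, ..., X_s` on `H` with values in the invertible matrices of size `r` such that for every `g` the
entries of `X_l(g h) X_l(h)⁻¹` are values of polynomials of degree at most `e` in each variable, with
coefficients which depend only on `g`, at the entries of `X_i(h)`, `X_i(h)⁻¹`, `i < l`, and the
coordinates of `x(h)` are values of such polynomials at the entries of all these matrices.

For all `n`, `D`, `s`, `r`, `e` there is a number `B` with the following two properties.

(1) Let `k` be a field with an embedding in `ℂ`, for instance a number field, and let `X_t`, for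
`t = (t_1, ..., t_m)`, be any algebraic family of projective varieties over `k`: `X_t` is given by
forms in `n + 2` variables of degree at most `D` whose coefficients are polynomials in `t` over `k`.
Then there is a Zariski-OPEN set `U` of parameters, defined by polynomials over `k`, which contains
ALL `t` with complex coordinates for which `X_t` is hyperbolic, and such that for every `t` in `U` all
families of points of `X_t` given by iterated recurrences of complexity `(s, r, e)`, over all groups
`H`, consist of at most `B` points.

So each hyperbolic member has a Zariski-open neighbourhood, defined over `k`, of members on which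
the bound holds (with the bound `B` which is the same for all families); these members need not be
hyperbolic.

(2) For hypersurfaces of degree `d`, `2 n + 2 ≤ d ≤ D`, in the space of dimension `n + 1` there is
such a set `U` which is not empty and given by one polynomial with rational coefficients: the bound
holds for the general hypersurface of degree `d`, although it is not known that it is hyperbolic.
-/

set_option autoImplicit false

namespace Pool.Agent.Results.MP_627a61_nt.ZariskiOpenFamilies

open MvPolynomial Pool.Agent.Q1.SL Pool.Agent.Y377.ST Pool.Agent.Q171.RC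

/-- The projective variety `X = {F = 0, F ∈ S}` is (Brody, hence Kobayashi) hyperbolic. -/
def Hyperbolic {N : ℕ} (S : Set (MvPolynomial (Fin N) ℂ)) : Prop :=
  ∀ g : ℂ → (Fin N → ℂ), Differentiable ℂ g → (∀ z, g z ≠ 0) →
    (∀ z, ∀ F ∈ S, eval (g z) F = 0) → ∀ z, ∃ c : ℂ, g z = c • g 0

/-- the equations of the member `X_t` of the family -/
def member {N m : ℕ} {k : Type} [Field k] [Algebra k ℂ]
    (S : Set (MvPolynomial (Fin N) (MvPolynomial (Fin m) k))) (t : Fin m → ℂ) :
    Set (MvPolynomial (Fin N) ℂ) := map (aeval t : MvPolynomial (Fin m) k →ₐ[k] ℂ).toRingHom '' S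

/-- All families of points of the projective variety of `S`, over groups `H`, given by `s` iterated
recurrences with matrices of size `r` and polynomials of degree at most `e`, consist of at most `B`
points. -/
def PointBound {n : ℕ} (S : Set (MvPolynomial (Fin (n + 1)) ℂ)) (s r e B : ℕ) : Prop :=
  ∀ (H : Type) [Group H] (x : H → Fin (n + 1) → ℂ), IterVec s r e x →
    (∀ h, ∀ F ∈ S, eval (x h) F = 0) →
    {P | ∃ (h : H) (h0 : x h ≠ 0), P = Projectivization.mk ℂ (x h) h0}.encard ≤ (B : ℕ∞)

theorem result (n D s r e : ℕ) : ∃ B : ℕ,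
    (∀ (k : Type) [Field k] [Algebra k ℂ] (m : ℕ)
      (S : Set (MvPolynomial (Fin (n + 2)) (MvPolynomial (Fin m) k))),
      (∀ F ∈ S, ∃ e, e ≤ D ∧ F.IsHomogeneous e) →
      ∃ Ps : Set (MvPolynomial (Fin m) k),
        (∀ t : Fin m → ℂ, Hyperbolic (member S t) → ∃ Ψ ∈ Ps, aeval t Ψ ≠ 0) ∧
        ∀ t : Fin m → ℂ, (∃ Ψ ∈ Ps, aeval t Ψ ≠ 0) → PointBound (member S t) s r e B) ∧
    ∀ d, 2 * n + 2 ≤ d → d ≤ D → ∃ P : MvPolynomial ((Fin (n + 2)) →₀ ℕ) ℚ,
      (∃ F₀ : MvPolynomial (Fin (n + 2)) ℂ, F₀.IsHomogeneous d ∧
        aeval (fun m => F₀.coeff m) P ≠ 0) ∧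
      ∀ F : MvPolynomial (Fin (n + 2)) ℂ, F.IsHomogeneous d →
        aeval (fun m => F.coeff m) P ≠ 0 → PointBound {F} s r e B := by
  classical
  obtain ⟨δ, B, hfam⟩ := family (n := n + 1) (D := D) s r e
  refine ⟨B, ?_, ?_⟩
  · intro k _ _ m S hS
    obtain ⟨Ps, h1, h2⟩ := hfam S hS
    refine ⟨Ps, fun t ht => (h1 t).2 (noRat_of_brody ?_ ht δ), fun t ht => (h2 t ht).2⟩
    rintro _ ⟨F, hF, rfl⟩
    obtain ⟨e, -, he⟩ := hS F hF
    exact ⟨e, he.map _⟩
  · intro d hd hdD
    obtain ⟨G, hG, hGF⟩ := generic_form ℚ (n + 2) d
    have hfin := finite_exps (n + 2) d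
    obtain ⟨Qs, h1, h2⟩ := hfam (k := ℚ) {G} (by
      intro F hF
      rw [Set.mem_singleton_iff] at hF
      rw [hF]
      exact ⟨d, hdD, hG⟩)
    have hfib : ∀ F : MvPolynomial (Fin (n + 2)) ℂ, F.IsHomogeneous d →
        fibre {G} (fun α : {α : Fin (n + 2) →₀ ℕ // α.degree = d} => F.coeff α.1) = {F} := by
      intro F hF
      unfold fibre
      rw [Set.image_singleton, hGF F hF]
    have hren : ∀ (F : MvPolynomial (Fin (n + 2)) ℂ)
        (Ψ : MvPolynomial {α : Fin (n + 2) →₀ ℕ // α.degree = d} ℚ),
        aeval (fun m => F.coeff m) (rename Subtype.val Ψ) =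
          aeval (fun α : {α : Fin (n + 2) →₀ ℕ // α.degree = d} => F.coeff α.1) Ψ := by
      intro F Ψ
      rw [aeval_rename]
      rfl
    obtain ⟨F₀, hF₀, hp⟩ := exists_noRat hd
    obtain ⟨Ψ, hΨ, hΨ'⟩ := (h1 fun α => F₀.coeff α.1).2 (by
      rw [hfib F₀ hF₀]
      intro p hp1 _
      exact ⟨F₀, rfl, hp p hp1⟩)
    refine ⟨rename Subtype.val Ψ, ⟨F₀, hF₀, by rwa [hren]⟩, fun F hF hne => ?_⟩
    rw [hren] at hne
    have h3 := (h2 _ ⟨Ψ, hΨ, hne⟩).2
    rw [hfib F hF] at h3
    exact h3

end Pool.Agent.Results.MP_627a61_nt.ZariskiOpenFamilies
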